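import Pool.Agent.H25.EE.TargetsA

set_option autoImplicit false

open Polynomial Finset

namespace Pool.Agent.H65.EE

open Pool.Agent.H25.EE

theorem prf_one (s : ℝ) (β : ℂ) (hβ : β ≠ ee) :
    Real.exp (-(min s (vv β))) ≤ max (Real.exp (-s)) ‖β - ee‖ := by
  rcases le_total s (vv β) with h | h
  · rw [min_eq_left h]; exact le_max_left _ _
  · rw [min_eq_right h]
    have hpos : 0 < ‖β - ee‖ := norm_pos_iff.mpr (sub_ne_zero.mpr hβ)
    apply le_trans _ (le_max_right _ _)
    have h1 : -(vv β) ≤ Real.log ‖β - ee‖ := by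
      have := le_max_right 0 (-Real.log ‖β - ee‖)
      unfold vv; linarith
    calc Real.exp (-(vv β)) ≤ Real.exp (Real.log ‖β - ee‖) := Real.exp_le_exp.mpr h1
      _ = ‖β - ee‖ := Real.exp_log hpos

theorem prf_prod (c : ℝ) (hc : 0 < c) (w : ℂ → ℝ) (x0 : ℂ) (T : Multiset ℂ)
    (h : ∀ β ∈ T, Real.exp (-(w β)) ≤ c * ‖x0 - β‖) :
    Real.exp (-((T.map w).sum)) ≤ c ^ (Multiset.card T) * ‖(T.map (fun β => x0 - β)).prod‖ := by
  induction T using Multiset.induction_on with
  | empty => simp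
  | cons a T ih =>
    have h1 := h a (Multiset.mem_cons_self a T)
    have h2 := ih (fun β hβ => h β (Multiset.mem_cons_of_mem hβ))
    rw [Multiset.map_cons, Multiset.sum_cons, Multiset.map_cons, Multiset.prod_cons,
      Multiset.card_cons, neg_add, Real.exp_add, norm_mul]
    calc Real.exp (-(w a)) * Real.exp (-((T.map w).sum))
        ≤ (c * ‖x0 - a‖) * (c ^ (Multiset.card T) * ‖(T.map (fun β => x0 - β)).prod‖) :=
          mul_le_mul h1 h2 (Real.exp_pos _).le (by positivity)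
      _ = _ := by ring

theorem pf_PRF (hGP : T_GP) : T_PROF := by
  intro D N s φ hN hs hD H
  have hinj : Function.Injective (Int.castRingHom ℂ) := (Int.castRingHom ℂ).injective_int
  have hD0 : D ≠ 0 := by
    rintro rfl
    exact hD (by simp [ev, toC])
  have hcard : Multiset.card (rts D) ≤ N := by
    unfold rts toC
    exact (card_roots' _).trans (natDegree_map_le.trans hN)
  obtain ⟨x0, hx0, hS⟩ := hGP (rts D) N ee (Real.exp (-s)) hcard (Real.exp_pos _)
  have hc : (0:ℝ) < 8 * ((N:ℝ) + 1) := by positivity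
  have hc1 : (1:ℝ) ≤ 8 * ((N:ℝ) + 1) := by
    have : (0:ℝ) ≤ N := Nat.cast_nonneg N
    linarith
  have hroot : ∀ β ∈ rts D, β ≠ ee := by
    rintro β hβ rfl
    exact hD ((mem_roots'.mp hβ).2)
  have h1 := prf_prod (8 * ((N:ℝ) + 1)) hc (fun β => min s (vv β)) x0 (rts D)
    (fun β hβ => (prf_one s β (hroot β hβ)).trans (hS β hβ))
  have hev : ev D x0 = (toC D).leadingCoeff * ((rts D).map (fun β => x0 - β)).prod :=
    (IsAlgClosed.splits (toC D)).eval_eq_prod_roots x0
  have hlc : (1:ℝ) ≤ ‖(toC D).leadingCoeff‖ := by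
    have e1 : (toC D).leadingCoeff = ((D.leadingCoeff : ℤ) : ℂ) := by
      unfold toC
      rw [leadingCoeff_map_of_injective hinj]
      rfl
    rw [e1, Complex.norm_intCast]
    have h2 : D.leadingCoeff ≠ 0 := leadingCoeff_ne_zero.mpr hD0
    have h3 : (1:ℤ) ≤ |D.leadingCoeff| := Int.one_le_abs h2
    exact_mod_cast h3
  have h2 : ‖((rts D).map (fun β => x0 - β)).prod‖ ≤ ‖ev D x0‖ := by
    rw [hev, norm_mul]
    exact le_mul_of_one_le_left (norm_nonneg _) hlc
  have h3 := H x0 hx0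
  have h4 : Real.exp (-(((rts D).map (fun β => min s (vv β))).sum)) ≤
      Real.exp (N * Real.log (8 * ((N:ℝ) + 1)) + -φ) := by
    rw [Real.exp_add]
    have e2 : Real.exp (N * Real.log (8 * ((N:ℝ) + 1))) = (8 * ((N:ℝ) + 1)) ^ N := by
      rw [mul_comm, Real.exp_mul, Real.exp_log hc, Real.rpow_natCast]
    rw [e2]
    calc _ ≤ (8 * ((N:ℝ) + 1)) ^ (Multiset.card (rts D)) * ‖((rts D).map (fun β => x0 - β)).prod‖ := h1
      _ ≤ (8 * ((N:ℝ) + 1)) ^ N * Real.exp (-φ) :=
        mul_le_mul (pow_le_pow_right₀ hc1 hcard) (h2.trans h3) (norm_nonneg _) (by positivity)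
  have h5 := Real.exp_le_exp.mp h4
  linarith

end Pool.Agent.H65.EE

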