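import Pool.Agent.H25.EE.TargetsA

set_option autoImplicit false

open Polynomial Finset

namespace Pool.Agent.H65.EE

open Pool.Agent.H25.EE

/-- the product of the values at the roots is at least one -/
theorem res_ge_one (R Q : ℤ[X]) (β1 : ℂ) (hR : Irreducible R) (h1 : ev R β1 = 0)
    (h2 : ev Q β1 ≠ 0) :
    (1:ℝ) ≤ ‖(toC R).leadingCoeff‖ ^ Q.natDegree *
      ‖((rts R).map (fun β => ev Q β)).prod‖ := by
  have hinj : Function.Injective (Int.castRingHom ℂ) := (Int.castRingHom ℂ).injective_int
  have hdegR : (toC R).natDegree = R.natDegree := natDegree_map_eq_of_injective hinj R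
  have hdegQ : (toC Q).natDegree = Q.natDegree := natDegree_map_eq_of_injective hinj Q
  have hr : ((resultant R Q : ℤ) : ℂ) = (toC R).leadingCoeff ^ Q.natDegree *
      ((rts R).map (fun β => ev Q β)).prod := by
    have e1 := resultant_eq_prod_eval (toC R) (toC Q) Q.natDegree hdegQ.le
      (IsAlgClosed.splits (toC R))
    rw [hdegR] at e1
    unfold toC at e1
    rw [resultant_map_map] at e1
    exact e1
  have hne : resultant R Q ≠ 0 := by
    intro h0
    have hR0 : R ≠ 0 := hR.ne_zero
    have hnd : R.natDegree ≠ 0 := by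
      intro hd
      rw [natDegree_eq_zero] at hd
      obtain ⟨c, rfl⟩ := hd
      have hc : c ≠ 0 := by rintro rfl; exact hR0 (by simp)
      apply hc
      have : ((c : ℤ) : ℂ) = 0 := by simpa [ev, toC] using h1
      exact_mod_cast this
    have hprim : R.IsPrimitive := hR.isPrimitive hnd
    have hirr : Irreducible (R.map (Int.castRingHom ℚ)) :=
      (IsPrimitive.Int.irreducible_iff_irreducible_map_cast hprim).mp hR
    have hinjQ : Function.Injective (Int.castRingHom ℚ) := (Int.castRingHom ℚ).injective_int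
    have h3 : resultant (R.map (Int.castRingHom ℚ)) (Q.map (Int.castRingHom ℚ)) = 0 := by
      rw [natDegree_map_eq_of_injective hinjQ, natDegree_map_eq_of_injective hinjQ,
        resultant_map_map, h0]
      simp
    have h4 := (resultant_eq_zero_iff.mp h3).2
    rw [hirr.coprime_iff_not_dvd] at h4
    have h5 : R.map (Int.castRingHom ℚ) ∣ Q.map (Int.castRingHom ℚ) := not_not.mp h4
    obtain ⟨T, hT⟩ := h5
    have h6 : (Q.map (Int.castRingHom ℚ)).map (algebraMap ℚ ℂ) =
        (R.map (Int.castRingHom ℚ)).map (algebraMap ℚ ℂ) * T.map (algebraMap ℚ ℂ) := by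
      rw [hT, Polynomial.map_mul]
    rw [Polynomial.map_map, Polynomial.map_map] at h6
    have h7 : (algebraMap ℚ ℂ).comp (Int.castRingHom ℚ) = Int.castRingHom ℂ := by
      ext; simp
    rw [h7] at h6
    apply h2
    unfold ev toC at h1 ⊢
    rw [h6, eval_mul, h1, zero_mul]
  have h8 : (1:ℝ) ≤ ‖((resultant R Q : ℤ) : ℂ)‖ := by
    rw [Complex.norm_intCast]
    have h3 : (1:ℤ) ≤ |resultant R Q| := Int.one_le_abs hne
    exact_mod_cast h3
  rw [hr, norm_mul, norm_pow] at h8
  exact h8

theorem res_prod (N : ℕ) (H : ℝ) (g : ℂ → ℝ) (Q : ℤ[X]) (T : Multiset ℂ)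
    (h : ∀ β ∈ T, ‖ev Q β‖ ≤ Real.exp H * (max 1 ‖β‖) ^ N * Real.exp (-(g β))) :
    ‖(T.map (fun β => ev Q β)).prod‖ ≤ Real.exp ((Multiset.card T) * H +
      N * (T.map (fun β => Real.log (max 1 ‖β‖))).sum - (T.map g).sum) := by
  induction T using Multiset.induction_on with
  | empty => simp
  | cons a T ih =>
    have h1 := h a (Multiset.mem_cons_self a T)
    have h2 := ih (fun β hβ => h β (Multiset.mem_cons_of_mem hβ))
    simp only [Multiset.map_cons, Multiset.sum_cons, Multiset.prod_cons,
      Multiset.card_cons, norm_mul]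
    have hm : (0:ℝ) < max 1 ‖a‖ := lt_of_lt_of_le one_pos (le_max_left _ _)
    have e1 : Real.exp H * (max 1 ‖a‖) ^ N * Real.exp (-(g a)) =
        Real.exp (H + N * Real.log (max 1 ‖a‖) - g a) := by
      have : (max 1 ‖a‖) ^ N = Real.exp (N * Real.log (max 1 ‖a‖)) := by
        rw [mul_comm, Real.exp_mul, Real.exp_log hm, Real.rpow_natCast]
      rw [this, ← Real.exp_add, ← Real.exp_add]
      congr 1
    rw [e1] at h1
    calc _ ≤ Real.exp (H + N * Real.log (max 1 ‖a‖) - g a) * Real.exp ((Multiset.card T) * H +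
      N * (T.map (fun β => Real.log (max 1 ‖β‖))).sum - (T.map g).sum) :=
          mul_le_mul h1 h2 (norm_nonneg _) (Real.exp_pos _).le
      _ = _ := by
        rw [← Real.exp_add]
        congr 1
        push_cast
        ring

theorem pf_RES : T_RES := by
  intro R Q β1 N H g hR h1 h2 hQ hH
  have hinj : Function.Injective (Int.castRingHom ℂ) := (Int.castRingHom ℂ).injective_int
  have hR0 : R ≠ 0 := hR.ne_zero
  have hlc : (1:ℝ) ≤ ‖(toC R).leadingCoeff‖ := by
    have e1 : (toC R).leadingCoeff = ((R.leadingCoeff : ℤ) : ℂ) := by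
      unfold toC
      rw [leadingCoeff_map_of_injective hinj]
      rfl
    rw [e1, Complex.norm_intCast]
    have h2 : R.leadingCoeff ≠ 0 := leadingCoeff_ne_zero.mpr hR0
    have h3 : (1:ℤ) ≤ |R.leadingCoeff| := Int.one_le_abs h2
    exact_mod_cast h3
  have hge := res_ge_one R Q β1 hR h1 h2
  have hcard : Multiset.card (rts R) = R.natDegree := by
    have := (IsAlgClosed.splits (toC R)).natDegree_eq_card_roots
    unfold rts
    rw [← this]
    exact natDegree_map_eq_of_injective hinj R
  have hp := res_prod N H g Q (rts R) (fun β hβ => hH β ((mem_roots'.mp hβ).2))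
  rw [hcard] at hp
  have hlcN : ‖(toC R).leadingCoeff‖ ^ Q.natDegree ≤
      Real.exp (N * Real.log ‖(toC R).leadingCoeff‖) := by
    rw [mul_comm, Real.exp_mul, Real.exp_log (by linarith), Real.rpow_natCast]
    exact pow_le_pow_right₀ hlc hQ
  have h3 : (1:ℝ) ≤ Real.exp (N * Real.log ‖(toC R).leadingCoeff‖ + (R.natDegree * H +
      N * ((rts R).map (fun β => Real.log (max 1 ‖β‖))).sum - ((rts R).map g).sum)) := by
    rw [Real.exp_add]
    exact hge.trans (mul_le_mul hlcN hp (norm_nonneg _) (Real.exp_pos _).le)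
  have h4 : (0:ℝ) ≤ N * Real.log ‖(toC R).leadingCoeff‖ + (R.natDegree * H +
      N * ((rts R).map (fun β => Real.log (max 1 ‖β‖))).sum - ((rts R).map g).sum) := by
    exact Real.exp_le_exp.mp (le_of_eq_of_le Real.exp_zero h3)
  have hM1 : hM R = Real.log ‖(toC R).leadingCoeff‖ +
      ((rts R).map (fun β => Real.log (max 1 ‖β‖))).sum := by
    unfold hM
    rw [logMahlerMeasure_eq_log_leadingCoeff_add_sum_log_roots]
    unfold rts
    simp only [Real.posLog_eq_log_max_one (norm_nonneg _)]
  rw [hM1]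
  linarith

end Pool.Agent.H65.EE

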